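import Pool.Agent.Helper7.EC_E.GoalsM

set_option autoImplicit false

open Filter Topology

namespace EC237.ZE.PkME

/-- `Σ_{m<n} H^{(2)}_m / (m+1)` -/
noncomputable def Vn (n : ℕ) : ℝ := ∑ m ∈ Finset.range n, Hs 2 m / ((m:ℝ) + 1)

theorem Hs_succ (a n : ℕ) : Hs a (n + 1) = Hs a n + 1 / ((n:ℝ) + 1) ^ a := by
  rw [Hs, Finset.sum_range_succ, ← Hs]

theorem Zn_succ (n : ℕ) : Zn (n + 1) = Zn n + Hs 1 n / ((n:ℝ) + 1) ^ 2 := by
  rw [Zn, Finset.sum_range_succ, ← Zn]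

theorem En_succ (n : ℕ) : En (n + 1) = En n + Hs 1 n / ((n:ℝ) + 1) := by
  rw [En, Finset.sum_range_succ, ← En]

theorem Vn_succ (n : ℕ) : Vn (n + 1) = Vn n + Hs 2 n / ((n:ℝ) + 1) := by
  rw [Vn, Finset.sum_range_succ, ← Vn]

theorem Hs_zero (a : ℕ) : Hs a 0 = 0 := by simp [Hs]

theorem Hs_nonneg (a n : ℕ) : 0 ≤ Hs a n := by
  unfold Hs
  exact Finset.sum_nonneg fun m _ => by positivity

theorem Zn_nonneg (n : ℕ) : 0 ≤ Zn n := by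
  unfold Zn
  exact Finset.sum_nonneg fun m _ => div_nonneg (Hs_nonneg 1 m) (by positivity)

theorem En_nonneg (n : ℕ) : 0 ≤ En n := by
  unfold En
  exact Finset.sum_nonneg fun m _ => div_nonneg (Hs_nonneg 1 m) (by positivity)

theorem Vn_nonneg (n : ℕ) : 0 ≤ Vn n := by
  unfold Vn
  exact Finset.sum_nonneg fun m _ => div_nonneg (Hs_nonneg 2 m) (by positivity)

theorem Hs_one_le (n : ℕ) : Hs 1 n ≤ 2 * Real.sqrt n := by
  induction n with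
  | zero => simp [Hs_zero]
  | succ n ih =>
    rw [Hs_succ, pow_one]
    have h1 : (0:ℝ) ≤ n := by positivity
    have h2 : (0:ℝ) ≤ (n:ℝ) + 1 := by positivity
    have h3 : Real.sqrt n ^ 2 = n := Real.sq_sqrt h1
    have h4 : Real.sqrt ((n:ℝ) + 1) ^ 2 = (n:ℝ) + 1 := Real.sq_sqrt h2
    have h5 := Real.sqrt_nonneg (n:ℝ)
    have h6 : 1 ≤ Real.sqrt ((n:ℝ) + 1) := by
      rw [Real.one_le_sqrt]; linarith
    have h7 : Real.sqrt n ≤ Real.sqrt ((n:ℝ) + 1) := Real.sqrt_le_sqrt (by linarith)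
    have h8 : 1 / ((n:ℝ) + 1) ≤ 2 * (Real.sqrt ((n:ℝ) + 1) - Real.sqrt n) := by
      rw [div_le_iff₀ (by linarith)]
      have h9 : (Real.sqrt ((n:ℝ) + 1) - Real.sqrt n) * (Real.sqrt ((n:ℝ) + 1) + Real.sqrt n) = 1 := by
        nlinarith
      have h10 : Real.sqrt ((n:ℝ) + 1) + Real.sqrt n ≤ 2 * ((n:ℝ) + 1) := by
        nlinarith
      have h11 : 0 ≤ Real.sqrt ((n:ℝ) + 1) - Real.sqrt n := by linarith
      nlinarith
    push_cast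
    linarith

theorem summable_a : Summable fun n : ℕ => 1 / ((n:ℝ) + 1) ^ 2 := by
  have h := (summable_nat_add_iff 1).mpr (Real.summable_one_div_nat_pow.mpr (by norm_num : 1 < 2))
  refine h.congr fun n => ?_
  push_cast
  rfl

theorem summable_b : Summable fun n : ℕ => Hs 1 n / ((n:ℝ) + 1) ^ 2 := by
  have h := (summable_nat_add_iff 1).mpr (Real.summable_one_div_nat_rpow.mpr
    (by norm_num : (1:ℝ) < 3 / 2))
  refine Summable.of_nonneg_of_le (fun n => div_nonneg (Hs_nonneg 1 n) (by positivity))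
    (fun n => ?_) (h.mul_left 2)
  have h1 : (0:ℝ) < (n:ℝ) + 1 := by positivity
  have h2 : Hs 1 n ≤ 2 * Real.sqrt ((n:ℝ) + 1) :=
    (Hs_one_le n).trans (by gcongr; linarith)
  push_cast
  have h3 : ((n:ℝ) + 1) ^ (3 / 2 : ℝ) * Real.sqrt ((n:ℝ) + 1) = ((n:ℝ) + 1) ^ 2 := by
    rw [Real.sqrt_eq_rpow, ← Real.rpow_add h1]
    norm_num
  have h4 : (0:ℝ) < ((n:ℝ) + 1) ^ (3 / 2 : ℝ) := by positivity
  rw [div_le_iff₀ (by positivity)]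
  calc Hs 1 n ≤ 2 * Real.sqrt ((n:ℝ) + 1) := h2
    _ = 2 * (1 / ((n:ℝ) + 1) ^ (3 / 2 : ℝ)) * (((n:ℝ) + 1) ^ (3 / 2 : ℝ) * Real.sqrt ((n:ℝ) + 1)) := by
      field_simp
    _ = _ := by rw [h3]

theorem hsc {f g : ℕ → ℝ} {a : ℝ} (hf : HasSum f a) (h : ∀ m, f m = g m) : HasSum g a :=
  (funext h : f = g) ▸ hf

/-- Stuffle for two series with nonnegative terms. -/
theorem stuffle {a b : ℕ → ℝ} (ha : ∀ n, 0 ≤ a n) (hb : ∀ n, 0 ≤ b n) (sa : Summable a)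
    (sb : Summable b) :
    HasSum (fun n => a n * (∑ m ∈ Finset.range n, b m) + (∑ m ∈ Finset.range n, a m) * b n
      + a n * b n) ((∑' n, a n) * ∑' n, b n) := by
  rw [hasSum_iff_tendsto_nat_of_nonneg]
  · have h1 : ∀ n : ℕ, ∑ i ∈ Finset.range n, (a i * (∑ m ∈ Finset.range i, b m) +
        (∑ m ∈ Finset.range i, a m) * b i + a i * b i) =
        (∑ m ∈ Finset.range n, a m) * ∑ m ∈ Finset.range n, b m := by
      intro n
      induction n with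
      | zero => simp
      | succ n ih =>
        rw [Finset.sum_range_succ, ih, Finset.sum_range_succ, Finset.sum_range_succ]
        ring
    simp_rw [h1]
    exact sa.hasSum.tendsto_sum_nat.mul sb.hasSum.tendsto_sum_nat
  · intro n
    have h1 : 0 ≤ ∑ m ∈ Finset.range n, b m := Finset.sum_nonneg fun m _ => hb m
    have h2 : 0 ≤ ∑ m ∈ Finset.range n, a m := Finset.sum_nonneg fun m _ => ha m
    have h3 := ha n
    have h4 := hb n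
    positivity

/-- Cauchy product for two series with nonnegative terms. -/
theorem cauchy {a b : ℕ → ℝ} (ha : ∀ n, 0 ≤ a n) (hb : ∀ n, 0 ≤ b n) (sa : Summable a)
    (sb : Summable b) :
    HasSum (fun n => ∑ p ∈ Finset.HasAntidiagonal.antidiagonal n, a p.1 * b p.2) ((∑' n, a n) * ∑' n, b n) := by
  have h1 : Summable fun n => ‖a n‖ := by
    refine sa.congr fun n => ?_
    rw [Real.norm_of_nonneg (ha n)]
  have h2 : Summable fun n => ‖b n‖ := by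
    refine sb.congr fun n => ?_
    rw [Real.norm_of_nonneg (hb n)]
  rw [tsum_mul_tsum_eq_tsum_sum_antidiagonal_of_summable_norm h1 h2]
  exact (summable_norm_sum_mul_antidiagonal_of_summable_norm h1 h2).of_norm.hasSum

theorem anti_fst (g : ℕ → ℝ) (M : ℕ) :
    ∑ p ∈ Finset.HasAntidiagonal.antidiagonal M, g p.1 = ∑ k ∈ Finset.range (M + 1), g k :=
  Finset.Nat.sum_antidiagonal_eq_sum_range_succ_mk (fun p => g p.1) M

theorem anti_snd (g : ℕ → ℝ) (M : ℕ) :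
    ∑ p ∈ Finset.HasAntidiagonal.antidiagonal M, g p.2 = ∑ k ∈ Finset.range (M + 1), g k := by
  rw [← anti_fst, ← Finset.Nat.sum_antidiagonal_swap]
  rfl

theorem cast_eq {M : ℕ} {p : ℕ × ℕ} (hp : p ∈ Finset.HasAntidiagonal.antidiagonal M) :
    ((M:ℝ) + 2) = ((p.1:ℝ) + 1) + ((p.2:ℝ) + 1) := by
  rw [Finset.HasAntidiagonal.mem_antidiagonal] at hp
  have : (M:ℝ) = (p.1:ℝ) + (p.2:ℝ) := by rw [← hp]; push_cast; ring
  linarith

theorem pf1 {M : ℕ} {p : ℕ × ℕ} (hp : p ∈ Finset.HasAntidiagonal.antidiagonal M) :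
    1 / (((p.1:ℝ) + 1) * ((p.2:ℝ) + 1)) =
      (1 / ((p.1:ℝ) + 1) ^ 1 + 1 / ((p.2:ℝ) + 1) ^ 1) / ((M:ℝ) + 2) := by
  rw [cast_eq hp]
  have h1 : (p.1:ℝ) + 1 ≠ 0 := by positivity
  have h2 : (p.2:ℝ) + 1 ≠ 0 := by positivity
  have h3 : ((p.1:ℝ) + 1) + ((p.2:ℝ) + 1) ≠ 0 := by positivity
  field_simp
  ring

theorem pf21 {M : ℕ} {p : ℕ × ℕ} (hp : p ∈ Finset.HasAntidiagonal.antidiagonal M) :
    1 / (((p.1:ℝ) + 1) ^ 2 * ((p.2:ℝ) + 1)) =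
      1 / ((p.1:ℝ) + 1) ^ 2 / ((M:ℝ) + 2) +
      (1 / ((p.1:ℝ) + 1) ^ 1 + 1 / ((p.2:ℝ) + 1) ^ 1) / ((M:ℝ) + 2) ^ 2 := by
  rw [cast_eq hp]
  have h1 : (p.1:ℝ) + 1 ≠ 0 := by positivity
  have h2 : (p.2:ℝ) + 1 ≠ 0 := by positivity
  have h3 : ((p.1:ℝ) + 1) + ((p.2:ℝ) + 1) ≠ 0 := by positivity
  field_simp
  ring

theorem pf22 {M : ℕ} {p : ℕ × ℕ} (hp : p ∈ Finset.HasAntidiagonal.antidiagonal M) :
    1 / (((p.1:ℝ) + 1) ^ 2 * ((p.2:ℝ) + 1) ^ 2) =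
      (1 / ((p.1:ℝ) + 1) ^ 2 + 1 / ((p.2:ℝ) + 1) ^ 2) / ((M:ℝ) + 2) ^ 2 +
      2 * (1 / ((p.1:ℝ) + 1) + 1 / ((p.2:ℝ) + 1)) / ((M:ℝ) + 2) ^ 3 := by
  rw [cast_eq hp]
  have h1 : (p.1:ℝ) + 1 ≠ 0 := by positivity
  have h2 : (p.2:ℝ) + 1 ≠ 0 := by positivity
  have h3 : ((p.1:ℝ) + 1) + ((p.2:ℝ) + 1) ≠ 0 := by positivity
  field_simp
  ring

theorem conv1 (M : ℕ) :
    ∑ p ∈ Finset.HasAntidiagonal.antidiagonal M, Hs 1 p.2 / ((p.1:ℝ) + 1) = 2 * En (M + 1) := by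
  induction M with
  | zero => simp [En, Hs]
  | succ M ih =>
    rw [Finset.Nat.sum_antidiagonal_succ', En_succ]
    simp only [Hs_zero, zero_div, zero_add]
    have h1 : ∀ p ∈ Finset.HasAntidiagonal.antidiagonal M, Hs 1 (p.2 + 1) / ((p.1:ℝ) + 1) =
        Hs 1 p.2 / ((p.1:ℝ) + 1) +
          (1 / ((p.1:ℝ) + 1) ^ 1 + 1 / ((p.2:ℝ) + 1) ^ 1) / ((M:ℝ) + 2) := by
      intro p hp
      rw [← pf1 hp, Hs_succ]
      have h1 : (p.1:ℝ) + 1 ≠ 0 := by positivity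
      have h2 : (p.2:ℝ) + 1 ≠ 0 := by positivity
      field_simp
    rw [Finset.sum_congr rfl h1, Finset.sum_add_distrib, ih, ← Finset.sum_div,
      Finset.sum_add_distrib, anti_fst (fun k => 1 / ((k:ℝ) + 1) ^ 1),
      anti_snd (fun k => 1 / ((k:ℝ) + 1) ^ 1), ← Hs]
    push_cast
    ring

theorem conv2 (M : ℕ) :
    ∑ p ∈ Finset.HasAntidiagonal.antidiagonal M, Hs 1 p.2 / ((p.1:ℝ) + 1) ^ 2 = Vn (M + 1) + 2 * Zn (M + 1) := by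
  induction M with
  | zero => simp [Vn, Zn, Hs]
  | succ M ih =>
    rw [Finset.Nat.sum_antidiagonal_succ', Vn_succ, Zn_succ]
    simp only [Hs_zero, zero_div, zero_add]
    have h1 : ∀ p ∈ Finset.HasAntidiagonal.antidiagonal M, Hs 1 (p.2 + 1) / ((p.1:ℝ) + 1) ^ 2 =
        Hs 1 p.2 / ((p.1:ℝ) + 1) ^ 2 + (1 / ((p.1:ℝ) + 1) ^ 2 / ((M:ℝ) + 2) +
          (1 / ((p.1:ℝ) + 1) ^ 1 + 1 / ((p.2:ℝ) + 1) ^ 1) / ((M:ℝ) + 2) ^ 2) := by
      intro p hp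
      rw [← pf21 hp, Hs_succ]
      have h1 : (p.1:ℝ) + 1 ≠ 0 := by positivity
      have h2 : (p.2:ℝ) + 1 ≠ 0 := by positivity
      field_simp
    rw [Finset.sum_congr rfl h1, Finset.sum_add_distrib, ih, Finset.sum_add_distrib,
      ← Finset.sum_div, ← Finset.sum_div, Finset.sum_add_distrib,
      anti_fst (fun k => 1 / ((k:ℝ) + 1) ^ 1), anti_fst (fun k => 1 / ((k:ℝ) + 1) ^ 2),
      anti_snd (fun k => 1 / ((k:ℝ) + 1) ^ 1), ← Hs, ← Hs]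
    push_cast
    ring

theorem prod_id (n : ℕ) : Hs 1 n * Hs 2 n = Hs 3 n + Zn n + Vn n := by
  induction n with
  | zero => simp [Hs_zero, Zn, Vn]
  | succ n ih =>
    rw [Hs_succ, Hs_succ, Hs_succ, Zn_succ, Vn_succ]
    have h1 : (n:ℝ) + 1 ≠ 0 := by positivity
    have h2 : (Hs 1 n + 1 / ((n:ℝ) + 1) ^ 1) * (Hs 2 n + 1 / ((n:ℝ) + 1) ^ 2) =
        Hs 1 n * Hs 2 n + Hs 1 n / ((n:ℝ) + 1) ^ 2 + Hs 2 n / ((n:ℝ) + 1) +
          1 / ((n:ℝ) + 1) ^ 3 := by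
      field_simp
      ring
    rw [h2, ih]
    ring

theorem cauchy_term (M : ℕ) :
    ∑ p ∈ Finset.HasAntidiagonal.antidiagonal M, 1 / ((p.1:ℝ) + 1) ^ 2 * (Hs 1 p.2 / ((p.2:ℝ) + 1) ^ 2) =
      (Vn (M + 1) + 3 * Zn (M + 1)) / ((M:ℝ) + 2) ^ 2 + 6 * En (M + 1) / ((M:ℝ) + 2) ^ 3 := by
  have h1 : ∀ p ∈ Finset.HasAntidiagonal.antidiagonal M,
      1 / ((p.1:ℝ) + 1) ^ 2 * (Hs 1 p.2 / ((p.2:ℝ) + 1) ^ 2) =
      (Hs 1 p.2 / ((p.1:ℝ) + 1) ^ 2 + Hs 1 p.2 / ((p.2:ℝ) + 1) ^ 2) / ((M:ℝ) + 2) ^ 2 +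
      (Hs 1 p.2 / ((p.1:ℝ) + 1) + Hs 1 p.2 / ((p.2:ℝ) + 1)) * 2 / ((M:ℝ) + 2) ^ 3 := by
    intro p hp
    have e := pf22 hp
    have e1 : 1 / ((p.1:ℝ) + 1) ^ 2 * (Hs 1 p.2 / ((p.2:ℝ) + 1) ^ 2) =
        Hs 1 p.2 * (1 / (((p.1:ℝ) + 1) ^ 2 * ((p.2:ℝ) + 1) ^ 2)) := by
      have h1 : (p.1:ℝ) + 1 ≠ 0 := by positivity
      have h2 : (p.2:ℝ) + 1 ≠ 0 := by positivity
      field_simp
    rw [e1, e]
    ring
  rw [Finset.sum_congr rfl h1, Finset.sum_add_distrib, ← Finset.sum_div, ← Finset.sum_div,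
    ← Finset.sum_mul, Finset.sum_add_distrib, Finset.sum_add_distrib, conv1, conv2,
    anti_snd (fun k => Hs 1 k / ((k:ℝ) + 1) ^ 2), anti_snd (fun k => Hs 1 k / ((k:ℝ) + 1)),
    ← Zn, ← En]
  ring

theorem thm : EC237.ZE.G_ME := by
  have ha : ∀ n : ℕ, 0 ≤ 1 / ((n:ℝ) + 1) ^ 2 := fun n => by positivity
  have hb : ∀ n : ℕ, 0 ≤ Hs 1 n / ((n:ℝ) + 1) ^ 2 := fun n =>
    div_nonneg (Hs_nonneg 1 n) (by positivity)
  have h1 := stuffle ha hb summable_a summable_b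
  have h2 := cauchy ha hb summable_a summable_b
  set A : ℝ := (∑' n : ℕ, 1 / ((n:ℝ) + 1) ^ 2) * ∑' n : ℕ, Hs 1 n / ((n:ℝ) + 1) ^ 2 with hA
  have h1' : HasSum (fun n : ℕ => 2 * (Zn n / ((n:ℝ) + 1) ^ 2) + Hs 3 n / ((n:ℝ) + 1) ^ 2
      + Vn n / ((n:ℝ) + 1) ^ 2 + Hs 1 n / ((n:ℝ) + 1) ^ 4) A := by
    refine hsc h1 fun n => ?_
    rw [← Zn, ← Hs]
    have h3 : Hs 2 n * (Hs 1 n / ((n:ℝ) + 1) ^ 2) = (Hs 3 n + Zn n + Vn n) / ((n:ℝ) + 1) ^ 2 := by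
      rw [← prod_id]; ring
    rw [h3]
    have h4 : (n:ℝ) + 1 ≠ 0 := by positivity
    field_simp
    ring
  have h2' : HasSum (fun n : ℕ => 3 * (Zn n / ((n:ℝ) + 1) ^ 2) + Vn n / ((n:ℝ) + 1) ^ 2
      + 6 * (En n / ((n:ℝ) + 1) ^ 3)) A := by
    rw [← hasSum_nat_add_iff' 1]
    simp only [Finset.range_one, Finset.sum_singleton]
    have h3 : 3 * (Zn 0 / (((0:ℕ):ℝ) + 1) ^ 2) + Vn 0 / (((0:ℕ):ℝ) + 1) ^ 2
      + 6 * (En 0 / (((0:ℕ):ℝ) + 1) ^ 3) = 0 := by simp [Zn, Vn, En]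
    rw [h3, sub_zero]
    refine hsc h2 fun n => ?_
    rw [cauchy_term]
    push_cast
    have h4 : (n:ℝ) + 1 + 1 = n + 2 := by ring
    rw [h4]
    ring
  -- summability of the pieces
  have sZ : Summable fun n : ℕ => Zn n / ((n:ℝ) + 1) ^ 2 := by
    refine Summable.of_nonneg_of_le (fun n => div_nonneg (Zn_nonneg n) (by positivity))
      (fun n => ?_) h2'.summable
    have e1 := div_nonneg (Zn_nonneg n) (by positivity : (0:ℝ) ≤ ((n:ℝ) + 1) ^ 2)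
    have e2 := div_nonneg (Vn_nonneg n) (by positivity : (0:ℝ) ≤ ((n:ℝ) + 1) ^ 2)
    have e3 := div_nonneg (En_nonneg n) (by positivity : (0:ℝ) ≤ ((n:ℝ) + 1) ^ 3)
    linarith
  have sV : Summable fun n : ℕ => Vn n / ((n:ℝ) + 1) ^ 2 := by
    refine Summable.of_nonneg_of_le (fun n => div_nonneg (Vn_nonneg n) (by positivity))
      (fun n => ?_) h2'.summable
    have e1 := div_nonneg (Zn_nonneg n) (by positivity : (0:ℝ) ≤ ((n:ℝ) + 1) ^ 2)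
    have e2 := div_nonneg (Vn_nonneg n) (by positivity : (0:ℝ) ≤ ((n:ℝ) + 1) ^ 2)
    have e3 := div_nonneg (En_nonneg n) (by positivity : (0:ℝ) ≤ ((n:ℝ) + 1) ^ 3)
    linarith
  have sE : Summable fun n : ℕ => En n / ((n:ℝ) + 1) ^ 3 := by
    refine Summable.of_nonneg_of_le (fun n => div_nonneg (En_nonneg n) (by positivity))
      (fun n => ?_) h2'.summable
    have e1 := div_nonneg (Zn_nonneg n) (by positivity : (0:ℝ) ≤ ((n:ℝ) + 1) ^ 2)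
    have e2 := div_nonneg (Vn_nonneg n) (by positivity : (0:ℝ) ≤ ((n:ℝ) + 1) ^ 2)
    have e3 := div_nonneg (En_nonneg n) (by positivity : (0:ℝ) ≤ ((n:ℝ) + 1) ^ 3)
    linarith
  have sH : Summable fun n : ℕ => Hs 3 n / ((n:ℝ) + 1) ^ 2 := by
    refine Summable.of_nonneg_of_le (fun n => div_nonneg (Hs_nonneg 3 n) (by positivity))
      (fun n => ?_) h1'.summable
    have e1 := div_nonneg (Zn_nonneg n) (by positivity : (0:ℝ) ≤ ((n:ℝ) + 1) ^ 2)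
    have e2 := div_nonneg (Vn_nonneg n) (by positivity : (0:ℝ) ≤ ((n:ℝ) + 1) ^ 2)
    have e3 := div_nonneg (Hs_nonneg 1 n) (by positivity : (0:ℝ) ≤ ((n:ℝ) + 1) ^ 4)
    linarith
  have s4 : Summable fun n : ℕ => Hs 1 n / ((n:ℝ) + 1) ^ 4 := by
    refine Summable.of_nonneg_of_le (fun n => div_nonneg (Hs_nonneg 1 n) (by positivity))
      (fun n => ?_) h1'.summable
    have e1 := div_nonneg (Zn_nonneg n) (by positivity : (0:ℝ) ≤ ((n:ℝ) + 1) ^ 2)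
    have e2 := div_nonneg (Vn_nonneg n) (by positivity : (0:ℝ) ≤ ((n:ℝ) + 1) ^ 2)
    have e3 := div_nonneg (Hs_nonneg 3 n) (by positivity : (0:ℝ) ≤ ((n:ℝ) + 1) ^ 2)
    linarith
  have f1 := ((((sZ.hasSum.mul_left 2).add sH.hasSum).add sV.hasSum).add s4.hasSum).unique h1'
  have f2 := (((sZ.hasSum.mul_left 3).add sV.hasSum).add (sE.hasSum.mul_left 6)).unique h2'
  unfold G_ME z221 z311 z41 z23
  linarith

end EC237.ZE.PkME
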