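import Pool.Agent.Helper7.EC_E.GoalsM

set_option autoImplicit false

open Filter Topology

namespace EC237.ZE.PkMK

theorem gg_nonneg {N P Q : ℝ} (hN : 0 ≤ N) (hP : 0 ≤ P) (hQ : 0 ≤ Q) : 0 ≤ gg N P Q := by
  unfold gg
  positivity

theorem w0_nonneg (j : ℕ) : 0 ≤ w0 j := by
  unfold w0
  split_ifs <;> norm_num

theorem gT_nonneg (q : ℤ × ℕ × ℕ) : 0 ≤ gT q := by
  unfold gT
  exact mul_nonneg (mul_nonneg (w0_nonneg _) (w0_nonneg _))
    (gg_nonneg (by positivity) (by positivity) (by positivity))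

/-- The fibre over `N = n + 1` (without the terms with `P = 0` or `Q = 0`). -/
noncomputable def W (n : ℕ) : Finset (ℤ × ℕ × ℕ) :=
  ((Finset.Icc (-((n:ℤ) + 1)) ((n:ℤ) + 1)) ×ˢ (Finset.range (n + 1) ×ˢ Finset.range (n + 1))).filter
    fun x => x.1.natAbs + x.2.1 + x.2.2 = n + 1

theorem card_abs (n c : ℕ) (hc : c ≤ n + 1) :
    ((Finset.Icc (-((n:ℤ) + 1)) ((n:ℤ) + 1)).filter fun k => k.natAbs = c).card =
      if c = 0 then 1 else 2 := by
  split_ifs with h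
  · have : ((Finset.Icc (-((n:ℤ) + 1)) ((n:ℤ) + 1)).filter fun k => k.natAbs = c) = {0} := by
      ext k
      simp only [Finset.mem_filter, Finset.mem_Icc, Finset.mem_singleton]
      omega
    rw [this]
    rfl
  · have : ((Finset.Icc (-((n:ℤ) + 1)) ((n:ℤ) + 1)).filter fun k => k.natAbs = c) =
        {(c:ℤ), -(c:ℤ)} := by
      ext k
      simp only [Finset.mem_filter, Finset.mem_Icc, Finset.mem_singleton, Finset.mem_insert]
      omega
    rw [this]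
    exact Finset.card_pair (by omega)

theorem abs_cast (k : ℤ) : |(k:ℝ)| = (k.natAbs : ℝ) := by
  rw [Nat.cast_natAbs, Int.cast_abs]

theorem fib (n i j : ℕ) (hi : i < n + 1) (hj : j < n + 1) :
    ∑ k ∈ Finset.Icc (-((n:ℤ) + 1)) ((n:ℤ) + 1),
      (if k.natAbs + i + j = n + 1 then gT (k, i, j) else 0) =
      wt n (n - j) (n - i) * gg ((n:ℝ) + 1) (((n - j : ℕ):ℝ) + 1) (((n - i : ℕ):ℝ) + 1) := by
  by_cases h : n + 1 < i + j
  · rw [Finset.sum_eq_zero]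
    · unfold wt
      rw [if_pos (by omega)]
      ring
    · intro k _
      rw [if_neg (by omega)]
  · have h' : i + j ≤ n + 1 := by omega
    rw [← Finset.sum_filter]
    have h1 : ((Finset.Icc (-((n:ℤ) + 1)) ((n:ℤ) + 1)).filter fun k =>
        k.natAbs + i + j = n + 1) =
        (Finset.Icc (-((n:ℤ) + 1)) ((n:ℤ) + 1)).filter fun k => k.natAbs = n + 1 - i - j := by
      ext k
      simp only [Finset.mem_filter, Finset.mem_Icc]
      omega
    rw [h1]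
    have h2 : ∀ k ∈ (Finset.Icc (-((n:ℤ) + 1)) ((n:ℤ) + 1)).filter fun k =>
        k.natAbs = n + 1 - i - j, gT (k, i, j) = w0 i * w0 j *
          gg ((n:ℝ) + 1) (((n - j : ℕ):ℝ) + 1) (((n - i : ℕ):ℝ) + 1) := by
      intro k hk
      rw [Finset.mem_filter] at hk
      unfold gT
      simp only
      rw [abs_cast, hk.2]
      have e1 : ((n + 1 - i - j : ℕ) : ℝ) = (n:ℝ) + 1 - i - j := by
        rw [Nat.sub_sub, Nat.cast_sub (by omega)]
        push_cast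
        ring
      have e2 : ((n - j : ℕ) : ℝ) = (n:ℝ) - j := by rw [Nat.cast_sub (by omega)]
      have e3 : ((n - i : ℕ) : ℝ) = (n:ℝ) - i := by rw [Nat.cast_sub (by omega)]
      rw [e1, e2, e3]
      congr 2 <;> ring
    rw [Finset.sum_congr rfl h2, Finset.sum_const, card_abs n _ (by omega), nsmul_eq_mul]
    unfold wt w0
    rw [if_neg (by omega : ¬ (n - j + (n - i) + 1 < n))]
    have c1 : (n - j + (n - i) + 1 = n) ↔ n + 1 - i - j = 0 := by omega
    have c2 : (n - j = n) ↔ j = 0 := by omega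
    have c3 : (n - i = n) ↔ i = 0 := by omega
    simp only [c1, c2, c3]
    split_ifs <;> push_cast <;> ring

theorem sum_W (n : ℕ) : ∑ x ∈ W n, gT x =
    1 / ((n:ℝ) + 1) * (2 / ((n:ℝ) + 1) ^ 2 * Sab 1 1 n +
      1 / ((n:ℝ) + 1) * (Sab 2 1 n + Sab 1 2 n) + Sab 2 2 n) := by
  have h1 : ∑ x ∈ W n, gT x = ∑ i ∈ Finset.range (n + 1), ∑ j ∈ Finset.range (n + 1),
      wt n (n - j) (n - i) * gg ((n:ℝ) + 1) (((n - j : ℕ):ℝ) + 1) (((n - i : ℕ):ℝ) + 1) := by
    unfold W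
    rw [Finset.sum_filter, Finset.sum_product_right, Finset.sum_product]
    refine Finset.sum_congr rfl fun i hi => Finset.sum_congr rfl fun j hj => ?_
    exact fib n i j (Finset.mem_range.mp hi) (Finset.mem_range.mp hj)
  have h2 : ∑ i ∈ Finset.range (n + 1), ∑ j ∈ Finset.range (n + 1),
      wt n (n - j) (n - i) * gg ((n:ℝ) + 1) (((n - j : ℕ):ℝ) + 1) (((n - i : ℕ):ℝ) + 1) =
      ∑ p ∈ Finset.range (n + 1), ∑ q ∈ Finset.range (n + 1),
      wt n p q * gg ((n:ℝ) + 1) ((p:ℝ) + 1) ((q:ℝ) + 1) := by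
    rw [Finset.sum_comm]
    have e1 := Finset.sum_range_reflect (fun p => ∑ q ∈ Finset.range (n + 1),
      wt n p q * gg ((n:ℝ) + 1) ((p:ℝ) + 1) ((q:ℝ) + 1)) (n + 1)
    rw [← e1]
    refine Finset.sum_congr rfl fun j _ => ?_
    have e2 := Finset.sum_range_reflect (fun q =>
      wt n (n + 1 - 1 - j) q * gg ((n:ℝ) + 1) (((n + 1 - 1 - j : ℕ):ℝ) + 1) ((q:ℝ) + 1)) (n + 1)
    rw [← e2]
    refine Finset.sum_congr rfl fun i _ => ?_
    simp only [Nat.add_sub_cancel]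
  have h3 : ∀ p q : ℕ, wt n p q * gg ((n:ℝ) + 1) ((p:ℝ) + 1) ((q:ℝ) + 1) =
      1 / ((n:ℝ) + 1) * (2 / ((n:ℝ) + 1) ^ 2 * (wt n p q / (((p:ℝ) + 1) ^ 1 * ((q:ℝ) + 1) ^ 1)) +
      1 / ((n:ℝ) + 1) * (wt n p q / (((p:ℝ) + 1) ^ 2 * ((q:ℝ) + 1) ^ 1) +
        wt n p q / (((p:ℝ) + 1) ^ 1 * ((q:ℝ) + 1) ^ 2)) +
      wt n p q / (((p:ℝ) + 1) ^ 2 * ((q:ℝ) + 1) ^ 2)) := by
    intro p q
    unfold gg
    have e1 : (p:ℝ) + 1 ≠ 0 := by positivity
    have e2 : (q:ℝ) + 1 ≠ 0 := by positivity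
    have e3 : (n:ℝ) + 1 ≠ 0 := by positivity
    field_simp
    ring
  rw [h1, h2]
  simp_rw [h3, ← Finset.mul_sum, Finset.sum_add_distrib, ← Finset.mul_sum, Finset.sum_add_distrib]
  rfl

theorem mem_W {x : ℤ × ℕ × ℕ} (hx : gT x ≠ 0) :
    x ∈ W (x.1.natAbs + x.2.1 + x.2.2 - 1) := by
  obtain ⟨k, i, j⟩ := x
  have hP : (|(k:ℝ)| + (i:ℝ)) ≠ 0 := by
    intro h
    apply hx
    unfold gT gg
    simp [h]
  have hQ : (|(k:ℝ)| + (j:ℝ)) ≠ 0 := by
    intro h
    apply hx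
    unfold gT gg
    simp [h]
  rw [abs_cast] at hP hQ
  have hP' : k.natAbs + i ≠ 0 := by exact_mod_cast hP
  have hQ' : k.natAbs + j ≠ 0 := by exact_mod_cast hQ
  unfold W
  simp only [Finset.mem_filter, Finset.mem_product, Finset.mem_Icc, Finset.mem_range]
  omega

theorem disj_W : (Set.univ : Set ℕ).PairwiseDisjoint W := by
  intro n _ m _ hnm
  rw [Function.onFun, Finset.disjoint_left]
  intro x hx hx'
  unfold W at hx hx'
  rw [Finset.mem_filter] at hx hx'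
  omega

theorem thm (h1 : EC237.ZE.G_MT) : EC237.ZE.G_MK := by
  unfold G_MT at h1
  simp_rw [← sum_W] at h1
  have hU : ∀ m : ℕ, ∑ n ∈ Finset.range m, ∑ x ∈ W n, gT x =
      ∑ x ∈ (Finset.range m).biUnion W, gT x := by
    intro m
    rw [Finset.sum_biUnion]
    exact disj_W.subset (Set.subset_univ _)
  have hWnn : ∀ n : ℕ, 0 ≤ ∑ x ∈ W n, gT x := fun n => Finset.sum_nonneg fun x _ => gT_nonneg x
  refine hasSum_of_isLUB_of_nonneg _ gT_nonneg ⟨?_, ?_⟩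
  · rintro _ ⟨u, rfl⟩
    -- every finite set is, up to terms equal to zero, contained in a union
    have h2 : ∑ x ∈ u, gT x = ∑ x ∈ u.filter (fun x => gT x ≠ 0), gT x :=
      (Finset.sum_filter_ne_zero u).symm
    show ∑ x ∈ u, gT x ≤ _
    rw [h2]
    set m := (u.sup fun x => x.1.natAbs + x.2.1 + x.2.2 - 1) + 1 with hm
    have h3 : u.filter (fun x => gT x ≠ 0) ⊆ (Finset.range m).biUnion W := by
      intro x hx
      rw [Finset.mem_filter] at hx
      rw [Finset.mem_biUnion]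
      refine ⟨_, ?_, mem_W hx.2⟩
      rw [Finset.mem_range, hm]
      exact Nat.lt_succ_of_le (Finset.le_sup (f := fun x : ℤ × ℕ × ℕ =>
        x.1.natAbs + x.2.1 + x.2.2 - 1) hx.1)
    calc ∑ x ∈ u.filter (fun x => gT x ≠ 0), gT x ≤ ∑ x ∈ (Finset.range m).biUnion W, gT x :=
          Finset.sum_le_sum_of_subset_of_nonneg h3 fun x _ _ => gT_nonneg x
      _ = ∑ n ∈ Finset.range m, ∑ x ∈ W n, gT x := (hU m).symm
      _ ≤ _ := sum_le_hasSum _ (fun n _ => hWnn n) h1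
  · intro B hB
    have h2 := h1.tendsto_sum_nat
    refine le_of_tendsto' h2 fun m => ?_
    rw [hU m]
    exact hB ⟨_, rfl⟩

end EC237.ZE.PkMK
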